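import Mathlib

/-! String isomorphism: the input and the statement. -/

set_option autoImplicit false

namespace Pool.Agent.P.MP_f1a348_lc.SI

/-- the `n × m` matrix of a map, row by row -/
def funBits {n m : ℕ} (f : Fin n → Fin m) : List Bool :=
  List.ofFn fun p : Fin (n * m) => decide (f p.divNat = p.modNat)

/-- a number written in unary, closed by `false` -/
def unary (n : ℕ) : List Bool := List.replicate n true ++ [false]

/-- the input: the three sizes, the matrices of the two strings and of the generators -/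
def siBits {n m : ℕ} (S : List (Equiv.Perm (Fin n))) (x y : Fin n → Fin m) : List Bool :=
  unary n ++ (unary m ++ (unary S.length ++
    (funBits x ++ (funBits y ++ S.flatMap fun g : Equiv.Perm (Fin n) => funBits g))))

/-- string isomorphism within `T C N` steps, `N = n + m + k` -/
def SIin (T : ℝ → ℕ → ℝ) : Prop :=
  ∃ (tm : Turing.FinTM2) (e₀ : tm.Γ tm.k₀ ≃ Bool) (e₁ : tm.Γ tm.k₁ ≃ Bool),
    (∀ k, Finite (tm.Γ k)) ∧ ∃ C : ℝ, ∀ (n m : ℕ) (S : List (Equiv.Perm (Fin n)))
      (x y : Fin n → Fin m), ∃ (t : ℕ) (b : Bool), (t : ℝ) ≤ T C (n + m + S.length) ∧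
        Nonempty (Turing.TM2OutputsInTime tm ((siBits S x y).map e₀.symm)
          (Option.some ([b].map e₁.symm)) t) ∧
        (b = true ↔ ∃ g ∈ Subgroup.closure {g | g ∈ S}, ∀ i, y (g i) = x i)

end Pool.Agent.P.MP_f1a348_lc.SI
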