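import Pool.Agent.P.MP_f1a348_lc.TO.XFINX

/-! String isomorphism: the machine that doubles its budget. -/

set_option autoImplicit false
set_option linter.unusedSectionVars false

namespace Pool.Agent.P.MP_f1a348_lc.SI

open Pool.Agent.Lib.Helper47 Pool.Agent.P.MP_f1a348_lc.GI Pool.Agent.Lib.Helper33

namespace MGENx

variable {Q : Type} [Enc Q]

/-- the state of the main loop -/
abbrev St (Q : Type) : Type := List Unit × List Unit × Q

/-- the initial state -/
def start (ps : List Bool → Q) (x : List Bool) : St Q := ([()], [], ps x)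

/-- double the budget -/
def step (s : St Q) : St Q := (s.1 ++ s.1, () :: s.2.1, s.2.2)

/-- the first answer of a level -/
def ans (an : (List Unit × List Unit) × Q → Option Bool) (s : St Q) : Option Bool :=
  ((List.range (() :: s.2.1).length).filterMap (fun j => an ((s.1, s.2.1.take j), s.2.2))).head?

theorem pt_step : PT (step : St Q → St Q) := by unfold step; fun_prop

theorem pt_ans {an : (List Unit × List Unit) × Q → Option Bool} (h : PT an) : PT (ans an) := by
  have h1 : PT (fun s : St Q => List.range (() :: s.2.1).length) := PT.rangeLength (by fun_prop)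
  have h3 : PT (fun a : St Q × ℕ => an ((a.1.1, a.1.2.1.take a.2), a.1.2.2)) :=
    PT.comp (g := fun a : St Q × ℕ => ((a.1.1, a.1.2.1.take a.2), a.1.2.2)) h (by fun_prop)
  exact PT.head? (PT.filterMap h3 h1)

theorem step_iter (ps : List Bool → Q) (x : List Bool) (k : ℕ) :
    (step^[k] (start ps x)).1.length = 2 ^ k ∧ (step^[k] (start ps x)).2.1.length = k ∧
      (step^[k] (start ps x)).2.2 = ps x := by
  induction k with
  | zero => exact ⟨rfl, rfl, rfl⟩
  | succ k ih =>
    rw [Function.iterate_succ_apply']
    generalize step^[k] (start ps x) = s at ih ⊢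
    exact ⟨by simp [step, ih.1, pow_succ, mul_two], by simp [step, ih.2.1], ih.2.2⟩

/-- inputs on which some level answers -/
def Halts (ps : List Bool → Q) (an : (List Unit × List Unit) × Q → Option Bool) (x : List Bool) :
    Prop := ∃ k, (ans an (step^[k] (start ps x))).isSome = true

variable {ps : List Bool → Q} {an : (List Unit × List Unit) × Q → Option Bool}

open Classical in
/-- the first level that answers -/
noncomputable def lev (x : {x // Halts ps an x}) : ℕ := Nat.find x.2

/-- the budget -/
noncomputable def bud (x : {x // Halts ps an x}) : ℕ := x.1.length + lev x + 2 ^ lev x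

theorem exists_machine (hp : PT ps) (hmn : PT an) :
    ∃ (M : BTM) (p : Polynomial ℕ), ∀ x : {x // Halts ps an x},
      M.Out x.1 [(ans an (step^[lev x] (start ps x.1))).getD false] (p.eval (bud x)) := by
  classical
  have ha := pt_ans hmn
  have hst : PT (start ps) := by unfold start; fun_prop
  have hlen : PB (bud (ps := ps) (an := an)) (fun x => x.1.length) :=
    PB.self.mono fun x => (Nat.le_add_right _ _).trans (Nat.le_add_right _ _)
  have hx : PB (bud (ps := ps) (an := an)) (fun x => size x.1) :=
    (((PB.const 4).mul hlen).add (PB.const 1)).mono (fun a => size_bits_le _)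
  have h0 : RT (bud (ps := ps) (an := an)) (fun x => x.1) (fun x => start ps x.1) := RT.of_PT hst hx
  have hs := h0.size_le hx
  have h1 : RT (bud (ps := ps) (an := an)) (fun x => start ps x.1)
      (fun x => step^[lev x] (start ps x.1)) := by
    refine RT.whileN (go := fun s => (ans an s).isNone) pt_step (PT.isNone ha) lev
      (fun x => 4 * bud x + 4 + size (start ps x.1))
      (PB.self.mono fun x => by unfold bud; exact (Nat.le_add_left _ _).trans (Nat.le_add_right _ _))
      ((((PB.const 4).mul PB.self).add (PB.const 4)).add hs) (fun x i hi => ?_) (fun x => ?_)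
      (fun x i hi => ?_)
    · have := Nat.find_min x.2 hi
      simpa using this
    · have := Nat.find_spec x.2
      rw [← Option.not_isSome, Bool.not_eq_false']
      exact this
    · obtain ⟨e1, e2, e3⟩ := step_iter ps x.1 i
      have e4 : 2 ^ i ≤ 2 ^ lev x := Nat.pow_le_pow_right (by omega) hi
      have e5 : (start ps x.1).2.2 = ps x.1 := rfl
      rw [size_prod, size_prod (step^[i] (start ps x.1)).2, TO.FX.size_units, TO.FX.size_units, e1,
        e2, e3, size_prod (start ps x.1), size_prod (start ps x.1).2, e5]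
      unfold bud
      omega
  have h2 := h1.trans (RT.of_PT (f := fun s => [(ans an s).getD false]) (by fun_prop)
    (h1.size_le hs))
  obtain ⟨M, t, ⟨p, hp⟩, _, h⟩ := (h0.trans h2).exists_btm hlen
  exact ⟨M, p, fun x => (h x).mono (hp x)⟩

end MGENx

open MGENx in
theorem machine_gen {Q : Type} [Enc Q] {ps : List Bool → Q} (hp : PT ps)
    {an : (List Unit × List Unit) × Q → Option Bool} (ha : PT an) :
    ∃ (B : BTM) (c d : ℕ), ∀ (x : List Bool) (good : Bool → Prop) (j T : ℕ), 2 ^ j ≤ T →
      (∀ pad lev b, an ((pad, lev), ps x) = some b → good b) →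
      (∀ pad lev : List Unit, lev.length = j → T ≤ pad.length → an ((pad, lev), ps x) ≠ none) →
      ∃ (b : Bool) (t : ℕ), good b ∧ B.Out x [b] t ∧ t ≤ c * (x.length + T + 1) ^ d := by
  classical
  obtain ⟨B, p, hB⟩ := exists_machine hp ha
  obtain ⟨c, d, hpd⟩ := TO.FX.poly_le_pow p
  refine ⟨B, c * 4 ^ d, d, fun x good j T hj hg hh => ?_⟩
  have t0 : 1 ≤ T := Nat.one_le_two_pow.trans hj
  have t2 : T < 2 ^ (Nat.log 2 T + 1) := Nat.lt_pow_succ_log_self (by omega) T
  have t3 : 2 ^ (Nat.log 2 T + 1) ≤ 2 * T := by
    have := Nat.pow_log_le_self 2 (show T ≠ 0 by omega)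
    rw [pow_succ]
    omega
  generalize Nat.log 2 T + 1 = i at t2 t3
  have hji : j ≤ i := ((Nat.pow_lt_pow_iff_right (by omega : 1 < 2)).1 (by omega)).le
  have hk : (ans an (step^[i] (start ps x))).isSome = true := by
    obtain ⟨e1, e2, e3⟩ := step_iter ps x i
    generalize step^[i] (start ps x) = s at e1 e2 e3
    have hu : (s.2.1.take j).length = j := by rw [List.length_take, e2]; omega
    obtain ⟨b, hb⟩ := Option.ne_none_iff_exists'.1 (hh s.1 _ hu (by omega))
    rw [ans, List.isSome_head?]
    refine List.ne_nil_of_mem (a := b) (List.mem_filterMap.2 ⟨j, List.mem_range.2 ?_, ?_⟩)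
    · rw [List.length_cons, e2]; omega
    · rw [e3, hb]
  let Z : {x // Halts ps an x} := ⟨x, i, hk⟩
  have hlev : lev Z ≤ i := Nat.find_min' Z.2 hk
  refine ⟨_, p.eval (bud Z), ?_, hB Z, ?_⟩
  · obtain ⟨b, hb⟩ := Option.isSome_iff_exists.1 (Nat.find_spec Z.2)
    change ans an (step^[lev Z] (start ps x)) = some b at hb
    change good ((ans an (step^[lev Z] (start ps x))).getD false)
    obtain ⟨-, -, e3⟩ := step_iter ps x (lev Z)
    rw [hb, Option.getD_some]
    obtain ⟨k, -, hk⟩ := List.mem_filterMap.1 (List.mem_of_mem_head? (Option.mem_def.2 hb))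
    rw [e3] at hk
    exact hg _ _ b hk
  · have h1 : bud Z + 1 ≤ 4 * (x.length + T + 1) := by
      have a1 : 2 ^ lev Z ≤ 2 ^ i := Nat.pow_le_pow_right (by omega) hlev
      have a2 : i < 2 ^ i := Nat.lt_two_pow_self
      have a3 : bud Z = x.length + lev Z + 2 ^ lev Z := rfl
      omega
    refine (hpd _).trans ((Nat.mul_le_mul_left c (Nat.pow_le_pow_left h1 d)).trans (le_of_eq ?_))
    rw [mul_pow, mul_assoc]

end Pool.Agent.P.MP_f1a348_lc.SI
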