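import Pool.Agent.P.MP_f1a348_lc.SI.Parse
import Pool.Agent.P.MP_f1a348_lc.SI.Mach
import Pool.Agent.P.MP_f1a348_lc.GY.TPTOP

/-! String isomorphism in time `2 ^ O(log² N)`. -/

set_option autoImplicit false
set_option linter.unusedSectionVars false

namespace Pool.Agent.P.MP_f1a348_lc.SI

open Pool.Agent.Lib.Helper47 Pool.Agent.P.MP_f1a348_lc.GI Pool.Agent.P.MP_f1a348_lc.TO
open Pool.Agent.P.MP_f1a348_lc.GX

theorem si_machine {run : List Unit × ℕ × Cx × Sta → Option Ans} (h : EngSpec run) :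
    SIin fun C N => ((N : ℝ) + 2) ^ (C * (lvl cL N + 8)) := by
  obtain ⟨B, c, d, hB⟩ := machine_gen pt_parse (pt_mn h)
  obtain ⟨c1, hc1⟩ := mn_halts h
  refine ⟨B.tm, B.e₀, B.e₁, B.fin, ((c + 2 * d + d * (c1 + 1) : ℕ) : ℝ), fun n m S x y => ?_⟩
  obtain ⟨E, F, e, hE, hF, hp⟩ := parse_eq S x y
  have hl := length_siBits S x y
  generalize n + m + S.length = N at e hp hl ⊢
  change ∃ (t : ℕ) (b : Bool), (t : ℝ) ≤ ((N : ℝ) + 2) ^ (_ * ((lev0 N : ℝ) + 8)) ∧ _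
  have hc2 := fun p => hc1 p N E F _ hp
  generalize lev0 N = j at hc2 ⊢
  obtain ⟨T, hT⟩ : ∃ T, T = (N + 2) ^ ((c1 + 1) * (j + 8)) := ⟨_, rfl⟩
  have hle : ∀ a, a ≤ (c1 + 1) * (j + 8) → (N + 2) ^ a ≤ T := fun a ha =>
    hT ▸ Nat.pow_le_pow_right (by omega) ha
  have t0 : j + 8 ≤ (c1 + 1) * (j + 8) := Nat.le_mul_of_pos_left _ (by omega)
  have t1 := hle 3 (by omega)
  have t2 : 2 ^ j ≤ T := (Nat.pow_le_pow_left (by omega) j).trans (hle j (by omega))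
  obtain ⟨b, t, h1, h2, h3⟩ := hB (siBits S x y)
    (fun b => b = true ↔ ∃ g ∈ Subgroup.closure {g | g ∈ S}, ∀ i, y (g i) = x i) j T t2
    (fun pad lev b hb => (mn_sound h hp (e ▸ hb)).trans (sol_iff hE hF S))
    (fun pad lev e1 e2 => e ▸ hc2 (pad, lev) e1
      ((hle _ (Nat.mul_le_mul (by omega) (by omega))).trans e2))
  refine ⟨t, b, ?_, h2, h1⟩
  have t3 : 1 ≤ T := Nat.one_le_two_pow.trans t2
  have h4 : t ≤ (N + 2) ^ ((c + 2 * d + d * (c1 + 1)) * (j + 8)) := by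
    refine h3.trans ((Nat.mul_le_mul_left c (Nat.pow_le_pow_left
      (show _ ≤ 4 * T by omega) d)).trans ?_)
    have a1 : c ≤ (N + 2) ^ (c * (j + 8)) :=
      Nat.lt_two_pow_self.le.trans ((Nat.pow_le_pow_left (by omega) c).trans
        (Nat.pow_le_pow_right (by omega) (Nat.le_mul_of_pos_right _ (by omega))))
    have a2 : 4 ^ d ≤ (N + 2) ^ (2 * d * (j + 8)) := by
      rw [show 4 = 2 ^ 2 by norm_num, ← pow_mul]
      exact (Nat.pow_le_pow_left (by omega) _).trans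
        (Nat.pow_le_pow_right (by omega) (Nat.le_mul_of_pos_right _ (by omega)))
    rw [mul_pow, hT, ← pow_mul, add_mul (c + 2 * d), add_mul c, pow_add, pow_add,
      mul_assoc ((N + 2) ^ (c * (j + 8)))]
    refine Nat.mul_le_mul a1 (Nat.mul_le_mul a2 (le_of_eq ?_))
    congr 1
    ring
  have h5 : ((c + 2 * d + d * (c1 + 1) : ℕ) : ℝ) * ((j : ℝ) + 8) =
      (((c + 2 * d + d * (c1 + 1)) * (j + 8) : ℕ) : ℝ) := by push_cast; ring
  rw [h5, Real.rpow_natCast]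
  exact_mod_cast h4

theorem si_final : SIin fun C N => 2 ^ (C * Real.logb 2 (N + 2) ^ 2) := by
  obtain ⟨run, h⟩ := eng_of mod_uni mv_pin1.mod mv_pin2.mod mv_quo1.mod mv_red0.mod
    mv_redE.mod mv_redJ.mod mod_giant mv_mark.mod mod_cut fun i => mod_bat (lv_pin i) (lv_quo i)
  obtain ⟨tm, e₀, e₁, h1, C, h2⟩ := si_machine h
  obtain ⟨C', h3⟩ := fin_time cL C
  refine ⟨tm, e₀, e₁, h1, C', fun n m S x y => ?_⟩
  obtain ⟨t, b, a1, a2⟩ := h2 n m S x y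
  exact ⟨t, b, a1.trans (h3 _), a2⟩

end Pool.Agent.P.MP_f1a348_lc.SI
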