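import Pool.Agent.P.MP_f1a348_lc.GY.TPMAIN

/-! String isomorphism: the first state for a given group. -/

set_option autoImplicit false
set_option linter.unusedSectionVars false

namespace Pool.Agent.P.MP_f1a348_lc.SI

open Pool.Agent.Lib.Helper47 Pool.Agent.P.MP_f1a348_lc.GI Pool.Agent.P.MP_f1a348_lc.TO
open Pool.Agent.P.MP_f1a348_lc.GX GX.PST0x GX.PMAINx
variable {cx : Cx}

/-- the points, two lists of arcs and the generators -/
abbrev Inp : Type := List ℕ × List (ℕ × ℕ) × List (ℕ × ℕ) × List U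

/-- the first state -/
def st1 (q : Inp) : Sta := (st0 q.1 q.2.1 q.2.2.1).cos (1, q.2.2.2)

theorem pt_st1 : PT st1 := by
  have a3 := pt_st0.comp (g := fun q : Inp => (q.1, q.2.1, q.2.2.1)) (by fun_prop)
  exact Sta.pt_cos a3 (by fun_prop)

/-- admissible inputs on `n` points -/
structure Pre (n : ℕ) (E F : List (ℕ × ℕ)) (S : List U) : Prop where
  se : E.Sublist (prodL (List.range n) (List.range n))
  sf : F.Sublist (prodL (List.range n) (List.range n))
  sy : ∀ g ∈ S, g ∈ SymN n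
  len : S.length ≤ n

variable {E F : List (ℕ × ℕ)} {S : List U}

theorem st1_wf (hc : cx.Ok) (h : Pre cx.n E F S) : cx.WF0 (st1 (cx.base, E, F, S)) := by
  have w := st0_wf hc (hc.base ▸ h.se) (hc.base ▸ h.sf)
  have hp : cx.n ≤ cx.pd := hc.nums.2.2.2.2.1.trans (PNUMx.lam_le hc)
  refine ⟨w.hσ, h.sy, h.len.trans hp, w.nd, w.ab, fun g hg x hx => ?_, w.nx, w.ny, w.xd, w.yd,
    w.ctr, w.a, w.b⟩
  have hg' : g ∈ SymN cx.n := gen_le.2 h.sy hg
  change x ∈ dom0 cx.base at hx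
  change g • x ∈ dom0 cx.base
  rw [hc.base] at hx ⊢
  exact smul_dom hg' hx

theorem st1_sz (hc : cx.Ok) {φ : ℕ} (h1 : 7 * 2 ^ φ ≤ cx.pd)
    (h2 : cx.n + cx.n * cx.n + cx.n * φ ≤ cx.b1) (h3 : φ + 1 ≤ cx.b1) :
    cx.Sz (st1 (cx.base, E, F, S)) φ :=
  have z := st0_sz hc E F h1 h2 h3
  ⟨z.f, z.d, z.k, z.a, z.b, z.h, z.i⟩

theorem st1_post (hc : cx.Ok) (h : Pre cx.n E F S) {a : Ans}
    (ha : cx.Post (st1 (cx.base, E, F, S)) a) :
    a.isSome = true ↔ ∃ g ∈ gen S, Maps g (E.map arcT) (F.map arcT) := by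
  have hm : ∀ g : U, g ∈ cs (some (st1 (cx.base, E, F, S)).c) ↔ g ∈ gen S := fun g => by
    show g ∈ cs (some ((1 : U), S)) ↔ _
    rw [mem_cs, inv_one, one_mul]
  constructor
  · intro e
    obtain ⟨⟨σ, T⟩, rfl⟩ := Option.isSome_iff_exists.1 e
    obtain ⟨h1, h2⟩ := ha.hi (self_mem_cs σ T)
    exact ⟨σ, (hm σ).1 h1, h2⟩
  · rintro ⟨π, p1, p2⟩
    have p3 : π ∈ SymN cx.n := gen_le.2 h.sy p1
    have h3 : π ∈ (st1 (cx.base, E, F, S)).Tgt := by
      rw [hc.base] at hm ⊢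
      exact ⟨fun x => π • x, ⟨(hm π).2 p1, p2⟩,
        ⟨⟨fun x hx => smul_dom p3 hx, (MulAction.injective π).injOn,
          fun y hy => ⟨π⁻¹ • y, smul_dom (inv_mem p3) hy, smul_inv_smul _ _⟩⟩,
          fun m l _ => ⟨fun k => (List.not_mem_nil k).elim, fun k => (List.not_mem_nil k).elim⟩⟩,
        fun _ _ => rfl⟩
    have h4 := ha.lo h3
    cases a with
    | none => simp at h4
    | some _ => rfl

theorem st1_pt (hc : cx.Ok) (h : Pre cx.n E F S) : ∀ w ∈ (cx.view (st1 (cx.base, E, F, S))).X,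
    (cx.view (st1 (cx.base, E, F, S))).Pt cx.P w (Phi0 cx.P cx.n) := by
  rw [hc.base]
  intro w hw
  obtain ⟨⟨u, v⟩, he, rfl⟩ := List.mem_map.1 (List.mem_toFinset.1 hw)
  obtain ⟨k1, k2⟩ := arc_lt h.se he
  have hg : (cx.view (st1 (List.range cx.n, E, F, S))).H ≤ SymN cx.n := gen_le.2 h.sy
  have hD : ∀ a, a < cx.n → Tm.atm a ∈ (cx.view (st1 (List.range cx.n, E, F, S))).D :=
    fun a ha => List.mem_toFinset.2 (mem_dom.2 (Or.inl ⟨a, ha, rfl⟩))
  generalize cx.view (st1 (List.range cx.n, E, F, S)) = V at hg hD ⊢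
  have o1 := orb_le hg k1 V.D
  have o2 := orb_le (K := V.H ⊓ MulAction.stabilizer U (Tm.atm u)) (inf_le_left.trans hg) k2 V.D
  refine ⟨[Tm.atm u, Tm.atm v], ⟨hD u k1, cx.n, 12289 * lg cx.n, 12289 * lg cx.n, o1, le_rfl,
    Or.inl (lgm o1), Or.inl (lgm ((Finset.card_le_card Finset.inter_subset_left).trans o1)),
    hD v k2, cx.n, 12289 * lg cx.n, 12289 * lg cx.n, o2, le_rfl, Or.inl (lgm o2),
    Or.inl (lgm ((Finset.card_le_card Finset.inter_subset_left).trans o2)), ?_⟩,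
    fun h hh => ?_, fun z hz K _ Q _ _ k => k.mono (le_inf le_rfl fun h hh => ?_)⟩
  · have a1 := cx.P.LV_mono (m := cx.n) o1 (le_refl (12289 * lg cx.n)) (le_refl (12289 * lg cx.n))
    have a2 := cx.P.LV_mono (m := cx.n) o2 (le_refl (12289 * lg cx.n)) (le_refl (12289 * lg cx.n))
    show 0 ≤ _
    unfold Phi0
    linarith
  · have h1 := mem_fixF.1 hh.2 (Tm.atm u) (by simp)
    have h2 := mem_fixF.1 hh.2 (Tm.atm v) (by simp)
    show h • arcT (u, v) = arcT (u, v)
    simp only [arcT, Tm.smul_pr, h1, h2]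
  · have h1 : h • arcT (u, v) = arcT (u, v) := hh.2
    simp only [arcT, Tm.smul_pr, Tm.pr_inj] at h1
    show h • z = z
    rcases List.mem_pair.1 hz with rfl | rfl
    · exact h1.1
    · exact h1.2

/-- the test -/
def mn (run : List Unit × ℕ × Cx × Sta → Option Ans) (a : Par × Inp) : Option Bool :=
  bif okB (mkc a.1 a.2.1) then
    (run (a.1.1, fu a.1 a.2.1, mkc a.1 a.2.1, st1 a.2)).map Option.isSome
  else none

variable {run : List Unit × ℕ × Cx × Sta → Option Ans}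

theorem pt_mn (h : EngSpec run) : PT (mn run) := by
  have a1 := pt_mk.comp (g := fun a : Par × Inp => (a.1, a.2.1)) (by fun_prop)
  have a2 := pt_fu.comp (g := fun a : Par × Inp => (a.1, a.2.1)) (by fun_prop)
  have a3 := pt_st1.comp (g := fun a : Par × Inp => a.2) (by fun_prop)
  exact PT.cond (pt_okB.comp a1) (PT.optMap (h.pt.comp
    (g := fun a : Par × Inp => (a.1.1, fu a.1 a.2.1, mkc a.1 a.2.1, st1 a.2))
    (PT.prodMk (by fun_prop) (a2.prodMk (a1.prodMk a3)))) (by fun_prop)) (PT.const _)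

theorem mn_sound (h : EngSpec run) {p : Par} {n : ℕ} {b : Bool} (hp : Pre n E F S)
    (e : mn run (p, List.range n, E, F, S) = some b) :
    b = true ↔ ∃ g ∈ gen S, Maps g (E.map arcT) (F.map arcT) := by
  have c4 : (mkc p (List.range n)).n = n := by simp [mkc, Cx.base, Cx.n]
  have hb : (mkc p (List.range n)).base = List.range (mkc p (List.range n)).n := by
    simp [mkc, Cx.base, Cx.n]
  unfold mn at e
  cases ho : okB (mkc p (List.range n)) with
  | false => simp [ho] at e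
  | true =>
    simp only [ho, cond_true] at e
    obtain ⟨a, ha, rfl⟩ := Option.map_eq_some_iff.1 e
    have ok := ((okB_iff hb).1 ho).1
    rw [← c4] at hp
    exact st1_post ok hp (h.sound _ _ _ _ a ok (st1_wf ok hp) ha)

theorem mn_halts (h : EngSpec run) : ∃ c : ℕ, ∀ (p : Par) n E F S, Pre n E F S →
    p.2.length = lev0 n → (n + 2) ^ (c * (lev0 n + 1)) ≤ p.1.length →
    mn run (p, List.range n, E, F, S) ≠ none := by
  obtain ⟨c, hc⟩ := h.halts
  refine ⟨802 * ((c + 1) * (2 ^ 70 + 4)), fun p n E F S hp hl hpad => ?_⟩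
  have hb : (mkc p (List.range n)).base = List.range (mkc p (List.range n)).n := by
    simp [mkc, Cx.base, Cx.n]
  have e1 := lamN_range n
  have e2 : fu p (List.range n) = fuel0 n (lev0 n) := by
    rw [fu, e1, hl, fuel_eq]
  obtain ⟨x, hx⟩ : ∃ x, x = fuel0 n (lev0 n) + 400 * lgn n * lev0 n + 3 := ⟨_, rfl⟩
  have b1 : 2 ^ (x * (c + 1)) ≤ p.1.length := by
    rw [hx]; exact (budget c n (lev0 n)).trans hpad
  have b2 : 2 ^ x ≤ p.1.length :=
    (Nat.pow_le_pow_right (by norm_num) (Nat.le_mul_of_pos_right _ (Nat.succ_pos _))).trans b1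
  have b3 : x < 2 ^ x := Nat.lt_two_pow_self
  have l1 := lgn_pos n
  have l2 : 1 ≤ lev0 n := by rw [lvl_eq]; omega
  have l3 : 400 * lgn n ≤ 400 * lgn n * lev0 n := Nat.le_mul_of_pos_right _ l2
  have b4 : 2 ^ (400 * lgn n) ≤ 2 ^ x := Nat.pow_le_pow_right (by norm_num) (by omega)
  obtain ⟨d1, d2, d3, d4, d5, d6⟩ := mkc_flds p (List.range n)
  have c1 : (mkc p (List.range n)).pd = 2 ^ x := by
    rw [Cx.pd, d1, List.length_take, e2, e1, hl, ← hx, p2_eq (by omega), min_eq_left b2]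
  have c2 : (mkc p (List.range n)).lam = 400 * lgn n := by
    rw [Cx.lam, d4, List.length_take, e1, min_eq_left (by omega)]
  have c3 : (mkc p (List.range n)).big.length = 2 ^ (400 * lgn n) := by
    rw [d3, List.length_take, e1, p2_eq (by omega), min_eq_left (by omega)]
  have c4 : (mkc p (List.range n)).n = n := by rw [Cx.n, d2, List.length_range]
  have c5 : (mkc p (List.range n)).uM.length = lev0 n := by rw [d5, hl]
  have c6 : (mkc p (List.range n)).P = pmOf n (lev0 n) := by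
    rw [Cx.P, c2, c4, c5, d6, List.length_drop, hl, pmOf]
  have c7 : (mkc p (List.range n)).b1 = 2 ^ (200 * lgn n) := by
    rw [Cx.b1, c2]; congr 1; omega
  have n1 := lt_pow_lgn n
  have f1 := fuel0_le n
  have g1 : 2 ^ (105 + 4 * lgn n) ≤ 2 ^ (200 * lgn n) :=
    Nat.pow_le_pow_right (by norm_num) (by omega)
  have g2 : 2 ^ (105 + 4 * lgn n) = 4 * (2 ^ lgn n * 2 ^ (103 + 3 * lgn n)) := by ring
  have g3 : 2 ^ lgn n ≤ 2 ^ (103 + 3 * lgn n) := Nat.pow_le_pow_right (by norm_num) (by omega)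
  have g4 : 2 ^ (103 + 3 * lgn n) ≤ 2 ^ lgn n * 2 ^ (103 + 3 * lgn n) :=
    Nat.le_mul_of_pos_left _ (Nat.two_pow_pos _)
  have g5 := Nat.mul_le_mul n1.le f1
  have g6 := Nat.mul_le_mul n1.le (n1.le.trans g3)
  have ok : (mkc p (List.range n)).Ok := by
    refine ⟨hb, by rw [c3, c2], by rw [c6]; exact pmOf_ok n, by omega, by omega, ?_⟩
    rw [c1, c2, c5]; exact Nat.pow_le_pow_right (by norm_num) (by omega)
  have ho : okB (mkc p (List.range n)) = true := by
    refine (okB_iff hb).2 ⟨ok, ?_⟩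
    have := lam_le n (lev0 n) l2
    rw [c1, c2, c5, Nat.mul_add]; omega
  have hr := hc p.1 (fuel0 n (lev0 n)) (mkc p (List.range n)) (st1 (List.range n, E, F, S))
    (Phi0 (mkc p (List.range n)).P (mkc p (List.range n)).n) ok (st1_wf ok (c4.symm ▸ hp))
    (st1_sz ok (by
      have : 2 ^ (fuel0 n (lev0 n) + 3) ≤ 2 ^ x := Nat.pow_le_pow_right (by norm_num) (by omega)
      rw [pow_add] at this
      omega) (by rw [c4, c7]; omega) (by omega))
    (by
      rw [c1, ← pow_mul]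
      exact (Nat.pow_le_pow_right (by norm_num) (Nat.mul_le_mul_left _ (Nat.le_succ _))).trans b1)
    (by rw [c6, c4]; exact phi0_le n) (by rw [c6, c4]; exact fuel0_ge n) (st1_pt ok (c4.symm ▸ hp))
  unfold mn
  simp only [ho, cond_true, e2]
  exact fun e => hr (Option.map_eq_none_iff.1 e)

end Pool.Agent.P.MP_f1a348_lc.SI
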