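import Pool.Agent.P.MP_f1a348_lc.SI.Defs
import Pool.Agent.P.MP_f1a348_lc.SI.St

/-! String isomorphism: reading the input. -/

set_option autoImplicit false
set_option linter.unusedSectionVars false

namespace Pool.Agent.P.MP_f1a348_lc.SI

open Pool.Agent.Lib.Helper47 Pool.Agent.P.MP_f1a348_lc.GI Pool.Agent.P.MP_f1a348_lc.TO
open Pool.Agent.P.MP_f1a348_lc.GX GX.PST0x

/-- the number in front -/
def un (z : List Bool) : ℕ := z.idxOf false

/-- the input after the number in front -/
def rest (z : List Bool) : List Bool := z.drop (un z + 1)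

/-- the arcs from the positions to their letters -/
def strA (V : List ℕ) (n m : ℕ) (z : List Bool) (off : ℕ) : List (ℕ × ℕ) :=
  (prodL V V).filter (fun p => Nat.blt p.1 n && Nat.ble n p.2 && Nat.blt p.2 (n + m) &&
    z.getD (off + (p.1 * m + (p.2 - n))) false)

/-- the instance that is built from the three sizes and the matrices -/
def build (V R K : List ℕ) (m : ℕ) (z : List Bool) : Inp :=
  (V, strA V R.length m z 0, strA V R.length m z (R.length * m), K.map (fun j =>
    FP.ofList (FX.arcs R z (R.length * m + (R.length * m + j * (R.length * R.length))))))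

/-- the parsed input -/
def parse (z : List Bool) : Inp :=
  build (List.range (un z + un (rest z) + un (rest (rest z)))) (List.range (un z))
    (List.range (un (rest (rest z)))) (un (rest z)) (rest (rest (rest z)))

theorem pt_un : PT un := by unfold un; fun_prop

theorem pt_rest : PT rest := by
  have := pt_un
  unfold rest; fun_prop

theorem un_le (z : List Bool) : un z ≤ z.length := List.idxOf_le_length

theorem rest_le (z : List Bool) : (rest z).length ≤ z.length := by simp [rest]

theorem pt_build : PT (fun a : List ℕ × List ℕ × List ℕ × ℕ × List Bool =>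
    build a.1 a.2.1 a.2.2.1 a.2.2.2.1 a.2.2.2.2) := by
  unfold build strA; fun_prop

theorem pt_parse : PT parse := by
  have r2 := pt_rest.comp pt_rest
  have u2 := pt_un.comp pt_rest
  have u3 := pt_un.comp r2
  have a1 : PT (fun z => List.range (un z + un (rest z) + un (rest (rest z)))) :=
    PT.range_of_le (l := fun z : List Bool => z ++ (z ++ z)) ((pt_un.add u2).add u3) (by fun_prop)
      fun z => by
        have := un_le z
        have := un_le (rest z)
        have := un_le (rest (rest z))
        have := rest_le z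
        have := rest_le (rest z)
        simp only [List.length_append]
        omega
  have a2 : PT (fun z => List.range (un z)) := PT.range_of_le pt_un PT.id un_le
  exact pt_build.comp (a1.prodMk (a2.prodMk ((a2.comp r2).prodMk (u2.prodMk (pt_rest.comp r2)))))

theorem un_unary (n : ℕ) (w : List Bool) : un (unary n ++ w) = n := by
  induction n with
  | zero => rfl
  | succ n ih =>
    rw [un, unary, List.replicate_succ, List.cons_append, List.cons_append,
      List.idxOf_cons_ne _ (by decide)]
    exact congrArg (· + 1) ih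

theorem rest_unary (n : ℕ) (w : List Bool) : rest (unary n ++ w) = w := by
  rw [rest, un_unary]
  exact List.drop_left' (by simp [unary])

variable {n m : ℕ}

theorem length_funBits (f : Fin n → Fin m) : (funBits f).length = n * m := List.length_ofFn

theorem idx_lt (a : Fin n) (b : Fin m) : a * m + b < n * m := by nlinarith [a.2, b.2]

theorem funBits_getD (f : Fin n → Fin m) (a : Fin n) (b : Fin m) :
    (funBits f).getD (a * m + b) false = decide (f a = b) := by
  have h1 := idx_lt a b
  have hN : 0 < m := Fin.pos b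
  rw [List.getD_eq_getElem _ _ (by rwa [length_funBits])]
  simp only [funBits, List.getElem_ofFn]
  have d2 : (a * m + b) / m = a := by
    rw [mul_comm, Nat.mul_add_div hN, Nat.div_eq_of_lt b.2, add_zero]
  have e1 : (⟨_, h1⟩ : Fin (n * m)).divNat = a := Fin.ext (by simp [d2])
  have e2 : (⟨_, h1⟩ : Fin (n * m)).modNat = b := Fin.ext (by simp [Nat.mod_eq_of_lt b.2])
  rw [e1, e2]

theorem getD_skip (u w : List Bool) {l : ℕ} (h : u.length = l) (p : ℕ) :
    (u ++ w).getD (l + p) false = w.getD p false := by
  rw [List.getD_append_right _ _ _ _ (by omega), h, Nat.add_sub_cancel_left]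

theorem flat_getD (S : List (Equiv.Perm (Fin n))) (j : ℕ) (hj : j < S.length) (a b : Fin n) :
    (S.flatMap fun g : Equiv.Perm (Fin n) => funBits g).getD (j * (n * n) + (a * n + b)) false =
      decide (S[j] a = b) := by
  induction S generalizing j with
  | nil => simp at hj
  | cons g S ih =>
    rw [List.flatMap_cons]
    cases j with
    | zero =>
      rw [zero_mul, zero_add, List.getD_append _ _ _ _ (by rw [length_funBits]; exact idx_lt a b),
        funBits_getD]
      rfl
    | succ j =>
      rw [Nat.succ_mul, add_comm (j * (n * n)), add_assoc, getD_skip _ _ (length_funBits _),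
        ih j (by simpa using hj)]
      rfl

/-- a permutation of `Fin n` as a permutation of the numbers -/
noncomputable def io (n : ℕ) : Equiv.Perm (Fin n) →* U :=
  (Equiv.Perm.viaEmbeddingHom Fin.valEmbedding).codRestrict (FPsub ℕ) fun g =>
    (Set.finite_range (Fin.valEmbedding (n := n))).subset fun a ha => by
      by_contra c
      exact ha (Equiv.Perm.viaEmbedding_apply_of_notMem g _ a c)

theorem io_app (g : Equiv.Perm (Fin n)) (a : Fin n) : (io n g).app a = g a :=
  Equiv.Perm.viaEmbedding_apply g Fin.valEmbedding a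

theorem io_fix (g : Equiv.Perm (Fin n)) {a : ℕ} (h : n ≤ a) : (io n g).app a = a :=
  Equiv.Perm.viaEmbedding_apply_of_notMem g Fin.valEmbedding a (by
    rintro ⟨b, rfl⟩
    exact absurd b.2 (not_lt.2 h))

theorem ofList_arcs (g : Equiv.Perm (Fin n)) {z : List Bool} {off : ℕ}
    (h : ∀ a b : Fin n, z.getD (off + (a * n + b)) false = decide (g a = b)) :
    FP.ofList (FX.arcs (List.range n) z off) = io n g := by
  have hm : ∀ p, p ∈ FX.arcs (List.range n) z off ↔ ∃ a : Fin n, p = ((a : ℕ), (g a : ℕ)) := by
    rintro ⟨a, b⟩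
    rw [FX.arcs, List.mem_filter, mem_prodL, List.length_range, List.mem_range, List.mem_range]
    constructor
    · rintro ⟨⟨h1, h2⟩, h3⟩
      rw [h ⟨a, h1⟩ ⟨b, h2⟩, decide_eq_true_eq] at h3
      exact ⟨⟨a, h1⟩, by rw [h3]⟩
    · rintro ⟨c, e⟩
      obtain ⟨rfl, rfl⟩ := Prod.mk.inj e
      exact ⟨⟨c.2, (g c).2⟩, by rw [h]; simp⟩
  refine FP.ext fun a => ?_
  rcases lt_or_ge a n with c | c
  · refine (FP.ofList_app (p := (a, (g ⟨a, c⟩ : ℕ))) (fun p hp q hq => ?_)
      ((hm _).2 ⟨⟨a, c⟩, rfl⟩)).trans (io_app g ⟨a, c⟩).symm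
    obtain ⟨u, rfl⟩ := (hm p).1 hp
    obtain ⟨v, rfl⟩ := (hm q).1 hq
    simp [Fin.val_inj]
  · rw [io_fix g c]
    refine FP.ofList_fix fun p hp => ?_
    obtain ⟨u, rfl⟩ := (hm p).1 hp
    have := u.2
    have := (g u).2
    constructor <;> dsimp only <;> omega

/-- the arcs of a string -/
def IsStr (x : Fin n → Fin m) (E : List (ℕ × ℕ)) : Prop :=
  ∀ p, p ∈ E ↔ ∃ i : Fin n, p = ((i : ℕ), n + x i)

theorem isStr_strA {N : ℕ} (hN : n + m ≤ N) (x : Fin n → Fin m) {z : List Bool} {off : ℕ}
    (h : ∀ (a : Fin n) (b : Fin m), z.getD (off + (a * m + b)) false = decide (x a = b)) :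
    IsStr x (strA (List.range N) n m z off) := by
  rintro ⟨a, b⟩
  simp only [strA, List.mem_filter, mem_prodL, List.mem_range, Bool.and_eq_true, Nat.blt_eq,
    Nat.ble_eq]
  constructor
  · rintro ⟨-, ⟨⟨h1, h2⟩, h3⟩, h4⟩
    rw [h ⟨a, h1⟩ ⟨b - n, by omega⟩, decide_eq_true_eq] at h4
    exact ⟨⟨a, h1⟩, by rw [h4]; simp only [Prod.mk.injEq, true_and]; omega⟩
  · rintro ⟨c, e⟩
    obtain ⟨rfl, rfl⟩ := Prod.mk.inj e
    have := c.2
    have := (x c).2
    refine ⟨⟨by omega, by omega⟩, ⟨⟨by omega, by omega⟩, by omega⟩, ?_⟩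
    rw [Nat.add_sub_cancel_left, h]
    simp

theorem parse_eq (S : List (Equiv.Perm (Fin n))) (x y : Fin n → Fin m) : ∃ E F,
    parse (siBits S x y) = (List.range (n + m + S.length), E, F, S.map (io n)) ∧ IsStr x E ∧
      IsStr y F ∧ Pre (n + m + S.length) E F (S.map (io n)) := by
  refine ⟨_, _, ?_, isStr_strA (N := n + m + S.length) (off := 0) (by omega) x
    (z := funBits x ++ (funBits y ++ S.flatMap fun g : Equiv.Perm (Fin n) => funBits g))
    fun a b => ?_, isStr_strA (N := n + m + S.length) (off := n * m) (by omega) y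
    (z := funBits x ++ (funBits y ++ S.flatMap fun g : Equiv.Perm (Fin n) => funBits g))
    fun a b => ?_, List.filter_sublist, List.filter_sublist, fun g hg a ha => ?_, by simp⟩
  · simp only [parse, siBits, un_unary, rest_unary, build, List.length_range, Prod.mk.injEq,
      true_and]
    refine List.ext_getElem (by simp) fun j h1 h2 => ?_
    rw [List.getElem_map, List.getElem_map, List.getElem_range]
    refine ofList_arcs _ fun a b => ?_
    rw [add_assoc, add_assoc, getD_skip _ _ (length_funBits _), getD_skip _ _ (length_funBits _),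
      flat_getD]
  · rw [zero_add, List.getD_append _ _ _ _ (by rw [length_funBits]; exact idx_lt a b),
      funBits_getD]
  · rw [getD_skip _ _ (length_funBits _),
      List.getD_append _ _ _ _ (by rw [length_funBits]; exact idx_lt a b), funBits_getD]
  · obtain ⟨u, -, rfl⟩ := List.mem_map.1 hg
    exact io_fix u (by omega)

theorem maps_iff {x y : Fin n → Fin m} {E F : List (ℕ × ℕ)} (hE : IsStr x E) (hF : IsStr y F)
    (g : Equiv.Perm (Fin n)) :
    Maps (io n g) (E.map arcT) (F.map arcT) ↔ ∀ i, y (g i) = x i := by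
  have k : ∀ (g : Equiv.Perm (Fin n)) (i : Fin n) (c : ℕ),
      io n g • arcT (i, n + c) = arcT (g i, n + c) := fun g i c => by
    rw [smul_arc, io_app, io_fix g (by omega)]
  constructor
  · intro h i
    have := (h _).1 (List.mem_map_of_mem ((hE _).2 ⟨i, rfl⟩))
    rw [k, List.mem_map_of_injective arc_inj] at this
    obtain ⟨j, e⟩ := (hF _).1 this
    obtain ⟨e1, e2⟩ := Prod.mk.inj e
    rw [Fin.ext e1]
    exact Fin.ext (by omega)
  · intro h t
    constructor
    · intro ht
      obtain ⟨p, hp, rfl⟩ := List.mem_map.1 ht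
      obtain ⟨i, rfl⟩ := (hE p).1 hp
      rw [k, ← h i]
      exact List.mem_map_of_mem ((hF _).2 ⟨_, rfl⟩)
    · intro ht
      obtain ⟨p, hp, e⟩ := List.mem_map.1 ht
      obtain ⟨j, rfl⟩ := (hF p).1 hp
      rw [← inv_smul_eq_iff.2 e, ← map_inv, k]
      refine List.mem_map_of_mem ((hE _).2 ⟨g⁻¹ j, ?_⟩)
      rw [← h]
      simp

theorem sol_iff {x y : Fin n → Fin m} {E F : List (ℕ × ℕ)} (hE : IsStr x E) (hF : IsStr y F)
    (S : List (Equiv.Perm (Fin n))) :
    (∃ g ∈ gen (S.map (io n)), Maps g (E.map arcT) (F.map arcT)) ↔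
      ∃ g ∈ Subgroup.closure {g | g ∈ S}, ∀ i, y (g i) = x i := by
  have e : gen (S.map (io n)) = (Subgroup.closure {g | g ∈ S}).map (io n) := by
    rw [MonoidHom.map_closure, gen]
    congr 1
    ext g
    simp
  rw [e]
  constructor
  · rintro ⟨_, ⟨g, hg, rfl⟩, h⟩
    exact ⟨g, hg, (maps_iff hE hF g).1 h⟩
  · rintro ⟨g, hg, h⟩
    exact ⟨_, ⟨g, hg, rfl⟩, (maps_iff hE hF g).2 h⟩

theorem length_siBits (S : List (Equiv.Perm (Fin n))) (x y : Fin n → Fin m) :
    (siBits S x y).length ≤ (n + m + S.length + 2) ^ 3 := by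
  have e : (siBits S x y).length =
      n + 1 + (m + 1 + (S.length + 1 + (n * m + (n * m + S.length * (n * n))))) := by
    simp [siBits, unary, length_funBits, List.length_flatMap]
    omega
  rw [e]
  generalize S.length = k
  nlinarith [Nat.zero_le (n * n * n), Nat.zero_le (m * m * m), Nat.zero_le (k * k * k),
    Nat.zero_le (n * n * m), Nat.zero_le (n * m * m), Nat.zero_le (n * k * k),
    Nat.zero_le (m * k * k), Nat.zero_le (m * m * k), Nat.zero_le (n * m * k),
    Nat.zero_le (n * n * k), Nat.zero_le (n * n), Nat.zero_le (m * m), Nat.zero_le (k * k),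
    Nat.zero_le (n * m), Nat.zero_le (n * k), Nat.zero_le (m * k)]

end Pool.Agent.P.MP_f1a348_lc.SI
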